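import Pool.Agent.L5helper66.FD.LG

/-!
# MP_666dc0_nt: the number field exists as soon as the Galois representations at one place exist

Question Q1 asks for an L-algebraic automorphic representation `Π` of a reductive group `G` over a
number field `F` (1) for a number field `E` over which all the Satake parameters `s_v`, `v ∉ Σ`, are
defined, and (2) for a Galois representation for every embedding of `E` in the algebraic closure of
`ℚ_ℓ`, for every `ℓ`. We show that part (1) is a consequence of the existence of Galois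
representations for the isomorphisms `ι : ℂ ≅ ℚ_ℓ^bar`, even at a single prime `ℓ` (for the places not
above `ℓ`; two primes give all places), and even at a single place of a number field; for every `G`. For
`GL_n`, parts (1) and (2) together are equivalent to

(2') for every `ℓ` and every isomorphism `ι : ℂ ≅ ℚ_ℓ^bar` there is a Galois representation for `ι(s_v)`,

so that the number field can be left out of the question.

* `PadicAlgCl ℓ` is the algebraic closure of `ℚ_ℓ` with its `ℓ`-adic norm (Mathlib).
* `F.fixingSubgroup` is the absolute Galois group of the subfield `F` of the algebraic closure of `ℚ`;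
  `InInertia P`, `IsGeomFrob q P` define the inertia groups and the (geometric) Frobenius elements at
  the maximal ideals `P` of the ring of all algebraic integers, and `P.under (𝓞 F)` is the place of `F`
  below `P` (starting library `Pool.Agent.Y800`, `Pool.Agent.R390.SF`).
* `Away S ℓ 𝔭`: the place `𝔭` is not in `S` and not above `ℓ`. `Frobs S ℓ`: the geometric Frobenius
  elements at these places.
* `Attached S ℓ r Q`: `r` is continuous and unramified away from `S` and `ℓ`, with Frobenius
  polynomials `Q 𝔭`. For `GL_n` the polynomials `∏ (X - α_i(v))` of the Satake parameters are the points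
  of the variety `X_v` of the problem.
* Part (3), all groups. `H = Pts I k` is an algebraic group over `ℚ` in `GL_N` (`IsGroup`; for example
  the dual group of `G`) and `p` is a homomorphism of the Galois group of `F` to `GL_N(ℚ)`, with finite
  image, which normalizes `H`. So `H p(Gal_F)` is the L-group of `G` (a split group with an action of
  the Galois group of a finite extension of `F` has such a realization). `AttL S ℓ I p r s`: `r` is an
  admissible homomorphism (`r σ ∈ H p(σ)`), unramified away from `S` and `ℓ`, and each Frobenius element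
  `σ` at these places is mapped into the `H`-conjugacy class of `s σ ∈ H p(σ)`.
* For `φ` in the Galois group, `PtsC I (p φ) k` is the group generated by `H` and `p(φ)`; `IsRepC` are
  its representations with coefficients in a number field `M`, given by polynomials in the entries of a
  matrix and of its inverse.

The number field `E` of part (3) contains the coefficients of the characteristic polynomials of `ρ(s_σ)`
for all Frobenius elements `σ` with `p(σ)` in the group generated by `p(φ)`. If `H` is reductive, the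
characters of the representations `ρ` span the `H`-invariant functions on the coset `H p(φ)` (algebraic
Peter-Weyl theorem), a finitely generated algebra, the coordinate ring of `X_v` if `Frob_v` is mapped to
`p(φ)`; as there are finitely many `p(φ)`, all `s_v` away from `ℓ` are points of the `X_v` over one
number field, which is part (1) of Q1.

Proof. Eigenvalues of matrices in compact groups are units, so all `ι(P_v)` have integral coefficients;
as a transcendental number is mapped to a number of absolute value larger than one by some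
isomorphism, the `P_v` are algebraic. Let the Galois group `Γ` of `ℚ` (or of `K₀`) act on the
isomorphisms. Every `r_ι` is defined over a finite extension of `ℚ_ℓ`, and there are countably many of
them up to inclusion; by Baire's theorem there are an open subset of `Γ` and one finite extension `K` which
contains the coefficients of all `σ(P_v)` for `σ` in this subset. By the finiteness theorem of Faltings
(with Hermite-Minkowski and Chebotarev, starting library) there is a finite set `T` of places, which
depends only on `F`, `S`, `ℓ`, `n`, `K`, such that the `σ(P_v)`, `v ∈ T`, determine all the others. So an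
open subgroup of `Γ` fixes all `P_v`. For (3) this is used over the field fixed by the elements which
`p` maps to powers of `p(φ)`.
-/

set_option autoImplicit false

attribute [local instance 10] DivisionRing.toRatAlgebra

namespace Pool.Agent.Results.MP_666dc0_nt.FieldOfDefinition

open NumberField Polynomial Pool.Agent.Y800 Pool.Agent.R390.SF Pool.Agent.L5helper66.FD

theorem result :
    -- (1) the number field from one place
    (∀ (F : SubFld ℚ) [FiniteDimensional ℚ F] (S : Set (Ideal (𝓞 F))), S.Finite →
      ∀ (n ℓ : ℕ) [Fact ℓ.Prime] (P : Ideal (𝓞 F) → ℂ[X]) (K₀ : IntermediateField ℚ ℂ)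
        [FiniteDimensional ℚ K₀] (j : K₀ →+* PadicAlgCl ℓ),
        (∀ ι : ℂ ≃+* PadicAlgCl ℓ, (∀ x : K₀, ι x = j x) →
          ∃ r : F.fixingSubgroup →* GL (Fin n) (PadicAlgCl ℓ),
            Attached S ℓ r (fun 𝔭 => (P 𝔭).map (ι : ℂ →+* PadicAlgCl ℓ))) →
        ∃ E : IntermediateField ℚ ℂ, FiniteDimensional ℚ E ∧
          ∀ 𝔭, Away S ℓ 𝔭 → ∀ i, (P 𝔭).coeff i ∈ E) ∧
    -- (2) the number field can be left out of the question
    (∀ (F : SubFld ℚ) [FiniteDimensional ℚ F] (S : Set (Ideal (𝓞 F))), S.Finite →
      ∀ (n : ℕ) (P : Ideal (𝓞 F) → ℂ[X])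
        (T : ∀ (ℓ : ℕ) [Fact ℓ.Prime], (F.fixingSubgroup →* GL (Fin n) (PadicAlgCl ℓ)) → Prop),
        (∃ E : IntermediateField ℚ ℂ, FiniteDimensional ℚ E ∧ ∃ P' : Ideal (𝓞 F) → E[X],
          (∀ 𝔭 : Ideal (𝓞 F), 𝔭.IsMaximal → 𝔭 ∉ S → (P' 𝔭).map (algebraMap E ℂ) = P 𝔭) ∧
          ∀ (ℓ : ℕ) [Fact ℓ.Prime] (j : E →+* PadicAlgCl ℓ),
            ∃ r : F.fixingSubgroup →* GL (Fin n) (PadicAlgCl ℓ),
              T ℓ r ∧ Attached S ℓ r (fun 𝔭 => (P' 𝔭).map j)) ↔
        ∀ (ℓ : ℕ) [Fact ℓ.Prime] (ι : ℂ ≃+* PadicAlgCl ℓ),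
          ∃ r : F.fixingSubgroup →* GL (Fin n) (PadicAlgCl ℓ),
            T ℓ r ∧ Attached S ℓ r (fun 𝔭 => (P 𝔭).map (ι : ℂ →+* PadicAlgCl ℓ))) ∧
    -- (3) all L-groups
    (∀ (F : SubFld ℚ) [FiniteDimensional ℚ F] (S : Set (Ideal (𝓞 F))), S.Finite →
      ∀ (N ℓ : ℕ) [Fact ℓ.Prime] (I : Set (Pol N)), IsGroup I →
        ∀ (p : F.fixingSubgroup →* GL (Fin N) ℚ), IsOpen (p.ker : Set F.fixingSubgroup) →
          (∀ σ, Norm I (p σ)) →
        ∀ (s : F.fixingSubgroup → GL (Fin N) ℂ),
          (∀ σ ∈ Frobs S ℓ, s σ * (bc ℂ (p σ))⁻¹ ∈ Pts I ℂ) →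
        ∀ (K₀ : IntermediateField ℚ ℂ) [FiniteDimensional ℚ K₀] (j : K₀ →+* PadicAlgCl ℓ),
        (∀ ι : ℂ ≃+* PadicAlgCl ℓ, (∀ x : K₀, ι x = j x) →
          ∃ r : F.fixingSubgroup →* GL (Fin N) (PadicAlgCl ℓ), AttL S ℓ I p r
            (fun σ => Matrix.GeneralLinearGroup.map (ι : ℂ →+* PadicAlgCl ℓ) (s σ))) →
        ∀ (φ : F.fixingSubgroup) (M : IntermediateField ℚ ℂ) [FiniteDimensional ℚ M]
          (m : ℕ) (ρ : Fin m → Fin m → PolM N M), IsRepC I (p φ) M ρ →
          ∃ E : IntermediateField ℚ ℂ, FiniteDimensional ℚ E ∧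
            ∀ σ ∈ Frobs S ℓ, (∃ n : ℤ, p σ = p φ ^ n) →
              ∀ i, (matM (algebraMap M ℂ) ρ (s σ)).charpoly.coeff i ∈ E) := by
  refine ⟨fun F _ S hS n ℓ _ P K₀ _ j h => core S hS ℓ n P K₀ j h, ?_,
    fun F _ S hS N ℓ _ I hI p hp hpI s hs K₀ _ j h φ M _ m ρ hρ =>
      lgen S hS ℓ hI p hp hpI s hs K₀ j h φ M ρ hρ⟩
  intro F _ S hS n P T
  constructor
  · rintro ⟨E, _, P', hP', h⟩ ℓ _ ι
    obtain ⟨r, hT, hr⟩ := h ℓ ((ι : ℂ →+* PadicAlgCl ℓ).comp (algebraMap E ℂ))
    refine ⟨r, hT, hr.1, fun 𝔭 h𝔭 Q hQ hQ𝔭 => ⟨(hr.2 𝔭 h𝔭 Q hQ hQ𝔭).1, fun σ hσ => ?_⟩⟩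
    rw [(hr.2 𝔭 h𝔭 Q hQ hQ𝔭).2 σ hσ]
    show (P' 𝔭).map ((ι : ℂ →+* PadicAlgCl ℓ).comp (algebraMap E ℂ)) =
      (P 𝔭).map (ι : ℂ →+* PadicAlgCl ℓ)
    rw [← hP' 𝔭 h𝔭.1 h𝔭.2.1, Polynomial.map_map]
  · intro h
    exact equiv_of_all S hS n P T h

end Pool.Agent.Results.MP_666dc0_nt.FieldOfDefinition
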