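import Pool.Agent.L5helper16.GP.E

/-!
# Patching Galois representations from finitely many extensions: an exact criterion

`L/F` is a finite Galois extension with group `V`, and `S` is a finite family of subgroups of `V`, that is, of
intermediate fields `E` of `L/F`, such that every element of `V` fixes a conjugate of one of the fields `E`.  A family of
Satake parameters `c` (conjugacy classes in `GL_n`, one for each unramified place of `F`) is given, and over each `E` there
is a Galois representation attached to it (to the base change to `E`), absolutely irreducible over `L`.  Is there one over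
`F`?

We give the exact answer in terms of `V` and `S`: it is yes for all such families if and only if the relations `[v] [w] = [v w]`,
`v`, `w` in one member of `S`, and `[g] [v] [g]⁻¹ = [g v g⁻¹]` define the group `V`.  There is no condition on `V` (for
example solvability) or on the fields `E` (they need not be Galois over `F`), and only finitely many of them are used.
Two families of examples: `V` a Frobenius group and the two fixed fields of its kernel and of a complement; and any family
of subfields of a Galois extension `M/F` such that every element of `Gal(M/F)` fixes a conjugate of one of them, together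
with one more field, linearly disjoint from `M`.
-/

set_option autoImplicit false

namespace Pool.Agent.Results.MP_666dc0_nt.FinitePatching

open Pool.Agent.L5helper16.GP

/-- `Γ` is the Galois group of a Galois extension of `F` which contains `L` (for example the maximal one unramified
outside a finite set of places), `X` the set of its unramified places, `fr Q` the Frobenius element of `Q`; the theorem of
Chebotarev says that the Frobenius elements are dense; `π : Γ → V` is the restriction to `L`. -/
structure Setting (V : Type) [Group V] where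
  Γ : Type
  X : Type
  [group : Group Γ]
  [top : TopologicalSpace Γ]
  [topGroup : IsTopologicalGroup Γ]
  [action : MulAction Γ X]
  fr : X → Γ
  conj : ∀ (γ : Γ) (Q : X), fr (γ • Q) = γ * fr Q * γ⁻¹
  dense : Dense (Set.range fr)
  π : Γ →* V
  surj : Function.Surjective π
  isOpen : IsOpen (π.ker : Set Γ)

attribute [instance] Setting.group Setting.top Setting.topGroup Setting.action

namespace Setting

variable {V : Type} [Group V] (𝒮 : Setting V) {Ω : Type} [Field Ω] [TopologicalSpace Ω] {n : ℕ}

/-- parameters at conjugate places are conjugate -/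
def Param (c : 𝒮.X → GL (Fin n) Ω) : Prop := ∀ (γ : 𝒮.Γ) (Q : 𝒮.X), IsConj (c (γ • Q)) (c Q)

/-- there is a representation attached to `c` over the field of `H` -/
def Has (c : 𝒮.X → GL (Fin n) Ω) (H : Subgroup V) : Prop :=
  ∃ r : H.comap 𝒮.π →* GL (Fin n) Ω, Attached 𝒮.π 𝒮.fr c H r

/-- there is a representation attached to `c` over the field of `H` which is absolutely irreducible over `L` -/
def HasIrr (c : 𝒮.X → GL (Fin n) Ω) (H : Subgroup V) : Prop :=
  ∃ r : H.comap 𝒮.π →* GL (Fin n) Ω, Attached 𝒮.π 𝒮.fr c H r ∧ Spans (resK 𝒮.π H r)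

/-- there is a continuous representation `s` over `F` attached to `c`, it is absolutely irreducible over `L`, and every
representation attached to `c` over an intermediate field is conjugate to the restriction of `s` -/
def Patched (c : 𝒮.X → GL (Fin n) Ω) : Prop :=
  ∃ s : 𝒮.Γ →* GL (Fin n) Ω, Continuous s ∧
    (∀ Q : 𝒮.X, (s (𝒮.fr Q) : Matrix (Fin n) (Fin n) Ω).charpoly = (c Q : Matrix (Fin n) (Fin n) Ω).charpoly) ∧
    Spans (s.comp 𝒮.π.ker.subtype) ∧
    ∀ (H : Subgroup V) (r : H.comap 𝒮.π →* GL (Fin n) Ω), Attached 𝒮.π 𝒮.fr c H r →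
      ∃ W : GL (Fin n) Ω, ∀ γ : H.comap 𝒮.π, s γ = W⁻¹ * r γ * W

end Setting

/-- patching from `S` is always possible -/
def Patches {V : Type} [Group V] (S : Set (Subgroup V)) : Prop :=
  ∀ (𝒮 : Setting V) (Ω : Type) [Field Ω] [TopologicalSpace Ω] [IsTopologicalRing Ω] [T2Space Ω] (n : ℕ)
    (c : 𝒮.X → GL (Fin n) Ω), 𝒮.Param c → (∀ H ∈ S, 𝒮.Has c H) → (∃ H ∈ S, 𝒮.HasIrr c H) → 𝒮.Patched c

/-- whenever `L` is contained in a Galois extension of `F` with group `Amal S`, some parameters in `GL₁` have attached
characters over all the fields of the members of `S`, but not over `F` -/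
def Fails {V : Type} [Group V] (S : Set (Subgroup V)) : Prop :=
  ∀ (𝒮 : Setting V) (P : 𝒮.Γ →* Amal S), Function.Surjective P → IsOpen (P.ker : Set 𝒮.Γ) → (toV S).comp P = 𝒮.π →
    ∀ (Ω : Type) [Field Ω] [TopologicalSpace Ω] [IsTopologicalRing Ω] [T2Space Ω] [IsAlgClosed Ω] [CharZero Ω],
      ∃ c : 𝒮.X → GL (Fin 1) Ω, 𝒮.Param c ∧ (∀ H ∈ S, 𝒮.Has c H) ∧ ¬ 𝒮.Has c ⊤

/-- `V` is a finite group and `S` a family of subgroups such that every element of `V` is conjugate into a member of `S`.
(1) If `S` generates all relations of `V`, then patching from `S` is always possible.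
(2) If not, the group `Amal S` is finite, and patching fails for suitable parameters in `GL₁` whenever `L` is contained in
a Galois extension of `F` with group `Amal S`.
(3) `S` generates all relations if `K` and `C` are in `S`, `K` is normal and every element of `V` is in `K` or in
`x C x⁻¹` for some `x ∈ K`.
(4) `S` generates all relations if `D` is a normal subgroup, every element of `V` is conjugate into a member of `S` which
contains `D`, and `V = D C` for one `C ∈ S`. -/
theorem result {V : Type} [Group V] [Finite V] (S : Set (Subgroup V)) (hc : Covers S) :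
    (Generates S → Patches S) ∧ (¬ Generates S → Finite (Amal S) ∧ Fails S) ∧
    (∀ K C : Subgroup V, K.Normal → K ∈ S → C ∈ S → (∀ v : V, v ∈ K ∨ ∃ x ∈ K, ∃ c ∈ C, v = x * c * x⁻¹) →
      Generates S) ∧
    (∀ D C : Subgroup V, D.Normal → C ∈ S → (∀ v : V, ∃ g : V, ∃ H ∈ S, D ≤ H ∧ g * v * g⁻¹ ∈ H) →
      (∀ v : V, ∃ d ∈ D, ∃ c ∈ C, v = d * c) → Generates S) := by
  refine ⟨?_, ?_, ?_, ?_⟩
  · intro hS 𝒮 Ω _ _ _ _ n c hcc hr hirr
    refine patch 𝒮.isOpen 𝒮.conj 𝒮.dense (c := c) ?_ 𝒮.surj hc hS hr hirr
    intro γ Q
    obtain ⟨g, hg⟩ := isConj_iff.mp (hcc γ Q).symm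
    rw [← hg]
    have h := charpoly_conj g⁻¹ (c Q)
    rwa [inv_inv] at h
  · intro hS
    refine ⟨finite_amal hc, ?_⟩
    intro 𝒮 P hP hopen hπ Ω _ _ _ _ _ _
    obtain ⟨c, h1, h2, h3⟩ := not_patch hc hS 𝒮.conj 𝒮.dense P hP hopen Ω
    rw [hπ] at h2 h3
    refine ⟨c, ?_, h2, h3⟩
    intro γ Q
    rw [h1]
  · intro K C hKn hK hC h
    exact generates_frob K C hK hC h
  · intro D C hDn hC h hDC
    exact generates_add D C hC h hDC

end Pool.Agent.Results.MP_666dc0_nt.FinitePatching
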