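import Pool.Agent.L5helper16.PP.Q

/-!
# Patching Galois representations without irreducibility

`L/F` is a finite Galois extension with group `V`, and `S` is a set of subgroups of `V`, that is, of intermediate fields of
`L/F`.  Given are parameters `c_Q` in `GL_n` at the unramified places `Q`, and over each field of `S` a representation
attached to them.  Is there one over `F`?  Nothing is assumed about the representations (they may be reducible, and there
may be no relation between the constituents over the different fields).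

(1) Yes, in dimension `n`, if every `max(n,2)` elements of `V` are simultaneously conjugate into a member of `S`.
(2) No, for all `F` and `L`, if some class function on `V` is the character of a representation of dimension `n` on each
member of `S`, but not on `V`.
(3) No for `n = |V| - 2` if all members of `S` are proper.
(4) If `V` is abelian and `S` contains all maximal subgroups (`S` contains all intermediate fields of prime degree), and not
`V`, then the answer is given by a combinatorial criterion on `V`: yes if every rational function on `V` with sum `n` whose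
sums over the cosets of the subgroups of prime order are natural numbers has natural numbers as values, and no, for all `F`
and `L`, otherwise.
(5) If moreover `V` is a `2`-group and `t - 1` is the number of quadratic extensions of `F` in `L`, `t ≥ 4`, then the answer
is yes if `2 (n + 1) < t` and no otherwise.  For example, for the subgroups of index two of an elementary abelian group of
order `8` the answer is yes for `n ≤ 2` and no for `n ≥ 3`.
-/

set_option autoImplicit false

namespace Pool.Agent.Results.MP_666dc0_nt.PatchingWithoutIrreducible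

open Pool.Agent.L5helper16.GP Pool.Agent.L5helper16.PP

/-- `Γ` is the Galois group of a Galois extension of `F` which contains `L` (for example the maximal one unramified
outside a finite set of places), `X` the set of its unramified places, `fr Q` the Frobenius element of `Q`; the theorem of
Chebotarev says that the Frobenius elements are dense; `π : Γ → V` is the restriction to `L`. -/
structure Setting (V : Type) [Group V] where
  Γ : Type
  X : Type
  [group : Group Γ]
  [top : TopologicalSpace Γ]
  [topGroup : IsTopologicalGroup Γ]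
  [action : MulAction Γ X]
  fr : X → Γ
  conj : ∀ (γ : Γ) (Q : X), fr (γ • Q) = γ * fr Q * γ⁻¹
  dense : Dense (Set.range fr)
  π : Γ →* V
  surj : Function.Surjective π
  isOpen : IsOpen (π.ker : Set Γ)

attribute [instance] Setting.group Setting.top Setting.topGroup Setting.action

namespace Setting

variable {V : Type} [Group V] (𝒮 : Setting V) {Ω : Type} [Field Ω] [TopologicalSpace Ω] {n : ℕ}

/-- parameters at conjugate places have the same characteristic polynomial -/
def Param (c : 𝒮.X → GL (Fin n) Ω) : Prop := ∀ (γ : 𝒮.Γ) (Q : 𝒮.X),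
  (c (γ • Q) : Matrix (Fin n) (Fin n) Ω).charpoly = (c Q : Matrix (Fin n) (Fin n) Ω).charpoly

/-- there is a representation attached to `c` over the field of `H` -/
def Has (c : 𝒮.X → GL (Fin n) Ω) (H : Subgroup V) : Prop :=
  ∃ r : H.comap 𝒮.π →* GL (Fin n) Ω, Attached 𝒮.π 𝒮.fr c H r

/-- `s` is a continuous representation over `F` whose Frobenius elements have the characteristic polynomials of the
parameters -/
def IsAtt (c : 𝒮.X → GL (Fin n) Ω) (s : 𝒮.Γ →* GL (Fin n) Ω) : Prop :=
  Continuous s ∧ ∀ Q : 𝒮.X, ((s (𝒮.fr Q) : GL (Fin n) Ω) : Matrix (Fin n) (Fin n) Ω).charpoly =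
    (c Q : Matrix (Fin n) (Fin n) Ω).charpoly

end Setting

/-- in dimension `n` representations over the fields of `S` patch: if parameters have attached representations over all
fields of `S` then they have one over `F`, and it has the same characteristic polynomials as every attached
representation over any intermediate field -/
def Patches {V : Type} [Group V] (S : Set (Subgroup V)) (n : ℕ) : Prop :=
  ∀ (𝒮 : Setting V) (Ω : Type) [Field Ω] [IsAlgClosed Ω] [CharZero Ω] [TopologicalSpace Ω] [IsTopologicalRing Ω]
    [T2Space Ω] (c : 𝒮.X → GL (Fin n) Ω), 𝒮.Param c → (∀ H ∈ S, 𝒮.Has c H) →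
    ∃ s : 𝒮.Γ →* GL (Fin n) Ω, 𝒮.IsAtt c s ∧ ∀ (H : Subgroup V) (r : H.comap 𝒮.π →* GL (Fin n) Ω),
      Attached 𝒮.π 𝒮.fr c H r → ∀ γ : H.comap 𝒮.π, ((s γ : GL (Fin n) Ω) : Matrix (Fin n) (Fin n) Ω).charpoly =
        ((r γ : GL (Fin n) Ω) : Matrix (Fin n) (Fin n) Ω).charpoly

/-- over `Ω`, for every setting there are parameters in dimension `n` with attached representations over all fields of `S`
and none over `F` -/
def FailsOver {V : Type} [Group V] (S : Set (Subgroup V)) (n : ℕ) (Ω : Type) [Field Ω] [TopologicalSpace Ω] : Prop :=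
  ∀ 𝒮 : Setting V, ∃ c : 𝒮.X → GL (Fin n) Ω, 𝒮.Param c ∧ (∀ H ∈ S, 𝒮.Has c H) ∧
    ¬ ∃ s : 𝒮.Γ →* GL (Fin n) Ω, 𝒮.IsAtt c s

/-- on `H` the function `T` is the character of a representation of dimension `n` -/
def IsChar {V : Type} [Group V] {Ω : Type} [Field Ω] (T : V → Ω) (n : ℕ) (H : Subgroup V) : Prop :=
  ∃ ρ : H →* GL (Fin n) Ω, ∀ x : H, ((ρ x : GL (Fin n) Ω) : Matrix (Fin n) (Fin n) Ω).trace = T x

lemma fails_of {V : Type} [Group V] [Finite V] {S : Set (Subgroup V)} (hS : Covers S) {n : ℕ} {β : ℤ}
    (h1 : ∀ H ∈ S, RegType n β H) (h2 : ¬ RegType n β (⊤ : Subgroup V)) (Ω : Type) [Field Ω] [CharZero Ω]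
    [TopologicalSpace Ω] [IsTopologicalRing Ω] [T2Space Ω] : FailsOver S n Ω := by
  classical
  intro 𝒮
  exact fails 𝒮.isOpen 𝒮.conj 𝒮.dense 𝒮.surj hS h1 h2

lemma card_top {V : Type} [Group V] : Nat.card (⊤ : Subgroup V) = Nat.card V :=
  Nat.card_congr Subgroup.topEquiv.toEquiv

/-- `V` is a finite group and `S` a set of subgroups.
(1) Patching works in dimension `n` if all `max(n,2)` elements of `V` are simultaneously conjugate into a member of `S`.
(2) Let every element of `V` be conjugate into a member of `S`.  A class function on `V` which is a character of dimension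
`n` on each member of `S` but not on `V` makes patching in dimension `n` fail in every setting.
(3) Patching in dimension `|V| - 2` fails in every setting if all members of `S` are proper.
(4) If `V` is abelian and not cyclic and `S` contains the maximal subgroups but not `V`, then patching in dimension `n`
works if `Crit V n` holds, and fails in every setting if not.
(5) For abelian `2`-groups with `t ≥ 4` elements `w` such that `w² = 1` the criterion is `2 (n + 1) < t`. -/
theorem result :
    (∀ (V : Type) [Group V] [Finite V] (S : Set (Subgroup V)) (n : ℕ), CoversTuples S (max n 2) → Patches S n) ∧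
    (∀ (V : Type) [Group V] [Finite V] (S : Set (Subgroup V)), Covers S → ∀ (n : ℕ) (Ω : Type) [Field Ω] [IsAlgClosed Ω]
      [CharZero Ω] [TopologicalSpace Ω] [IsTopologicalRing Ω] [T2Space Ω] (T : V → Ω),
      (∀ g v : V, T (g * v * g⁻¹) = T v) → (∀ H ∈ S, IsChar T n H) → ¬ IsChar T n ⊤ → FailsOver S n Ω) ∧
    (∀ (V : Type) [Group V] [Finite V] (S : Set (Subgroup V)), Covers S → (∀ H ∈ S, H ≠ ⊤) →
      ∀ (Ω : Type) [Field Ω] [CharZero Ω] [TopologicalSpace Ω] [IsTopologicalRing Ω] [T2Space Ω],
      FailsOver S (Nat.card V - 2) Ω) ∧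
    (∀ (V : Type) [CommGroup V] [Fintype V] (S : Set (Subgroup V)), ¬ IsCyclic V →
      (∀ H : Subgroup V, IsCoatom H → H ∈ S) → (∀ H ∈ S, H ≠ ⊤) → ∀ n : ℕ, (Crit V n → Patches S n) ∧
      (¬ Crit V n → ∀ (Ω : Type) [Field Ω] [IsAlgClosed Ω] [CharZero Ω] [TopologicalSpace Ω] [IsTopologicalRing Ω]
        [T2Space Ω], FailsOver S n Ω)) ∧
    (∀ (V : Type) [CommGroup V] [Fintype V], IsPGroup 2 V → ∀ t : ℕ, Nat.card {w : V // w * w = 1} = t → 4 ≤ t →
      ¬ IsCyclic V ∧ ∀ n : ℕ, (Crit V n ↔ 2 * (n + 1) < t)) := by
  refine ⟨?_, ?_, ?_, ?_, ?_⟩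
  · intro V _ _ S n hn 𝒮 Ω _ _ _ _ _ _ c hc hr
    obtain ⟨s, h1, h2, h3⟩ := patch_ss 𝒮.isOpen 𝒮.conj 𝒮.dense hc 𝒮.surj hn hr
    exact ⟨s, ⟨h1, h2⟩, h3⟩
  · intro V _ _ S hS n Ω _ _ _ _ _ _ T hT h1 h2 𝒮
    refine fails_cls 𝒮.isOpen 𝒮.conj 𝒮.dense 𝒮.surj hS hT h1 ?_
    rintro ⟨ρ, hρ⟩
    exact h2 ⟨ρ.comp (⊤ : Subgroup V).subtype, fun x => hρ x⟩
  · intro V _ _ S hS hp Ω _ _ _ _ _
    have hpos : 0 < Nat.card V := Nat.card_pos
    have hind : ∀ H : Subgroup V, Nat.card H * H.index = Nat.card V := fun H => H.card_mul_index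
    have h2 : ∀ H ∈ S, 2 ≤ H.index := by
      intro H hH
      have h3 := hp H hH
      have h4 : H.index ≠ 1 := fun h => h3 (Subgroup.index_eq_one.mp h)
      have h5 : H.index ≠ 0 := Subgroup.index_ne_zero_of_finite
      omega
    have hV : 2 ≤ Nat.card V := by
      obtain ⟨g, H, hH, -⟩ := hS 1
      have h3 := hind H
      have h4 := h2 H hH
      have h5 : 0 < Nat.card H := Nat.card_pos
      nlinarith
    have hn : ((Nat.card V - 2 : ℕ) : ℤ) = Nat.card V - 2 := by push_cast [hV]; ring
    refine fails_of (β := 2) hS ?_ ?_ Ω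
    · intro H hH
      refine ⟨H.index, by exact_mod_cast h2 H hH, ?_⟩
      rw [hn]
      have h3 : ((Nat.card H * H.index : ℕ) : ℤ) = Nat.card V := by exact_mod_cast hind H
      push_cast at h3
      linarith
    · rintro ⟨A, hA, h3⟩
      rw [hn, card_top] at h3
      have h4 : (A : ℤ) * Nat.card V = Nat.card V := by linarith
      have h5 : (0 : ℤ) < Nat.card V := by exact_mod_cast hpos
      nlinarith
  · intro V _ _ S hV hS hp n
    refine ⟨?_, ?_⟩
    · intro hcrit 𝒮 Ω _ _ _ _ _ _ c hc hr
      obtain ⟨s, h1, h2, h3⟩ := patch_ab 𝒮.isOpen 𝒮.conj 𝒮.dense hc 𝒮.surj hV hS hcrit hr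
      exact ⟨s, ⟨h1, h2⟩, h3⟩
    · intro hcrit Ω _ _ _ _ _ _ 𝒮
      exact fails_ab 𝒮.isOpen 𝒮.conj 𝒮.dense 𝒮.surj (covers_of hV hS) hp hcrit
  · intro V _ _ h2 t ht ht4
    classical
    have hcard : (Finset.univ.filter fun w : V => w * w = 1).card = t := by
      rw [← ht, Nat.card_eq_fintype_card, Fintype.card_subtype]
    refine ⟨fun hV => ?_, fun n => ?_⟩
    · have h3 := IsCyclic.card_pow_eq_one_le (α := V) (n := 2) (by norm_num)
      simp only [pow_two] at h3
      omega
    · rw [← hcard]
      refine crit_two (fun w hw => ?_) (by rw [hcard]; exact ht4)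
      obtain ⟨k, hk⟩ := IsPGroup.iff_orderOf.mp h2 w
      rw [hk] at hw ⊢
      rw [Nat.Prime.eq_one_of_pow hw, pow_one]

end Pool.Agent.Results.MP_666dc0_nt.PatchingWithoutIrreducible
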