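import Pool.Agent.L5helper16.GP.G

/-!
# Patching Galois representations with values in reductive subgroups of `GL_n`

`L/F` is a finite Galois extension with group `V`, and `S` is a finite family of subgroups of `V`, that is, of intermediate
fields of `L/F`, such that every element of `V` fixes a conjugate of one of these fields and the relations between
elements of one member of `S`, together with conjugation, define `V` (see `FinitePatching`).

Here the Galois representations have values in a subgroup `𝒢` of `GL_n`, the stabilizer of a line in a representation of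
`GL_n` (by Chevalley's theorem every algebraic subgroup of `GL_n` is one), the parameters are conjugacy classes of `𝒢`, and
everything is up to conjugacy in `𝒢`.  If over the fields of all the members of `S` there are `𝒢`-valued representations
attached to the parameters, then there is one over `F`, provided one of them is absolutely irreducible over `L`
(as a representation in `GL_n`) and the line is the only one with its character over `L`.  For the similitude group of a
nondegenerate bilinear form (`GSp_{2m}`, `GO_n`) the last condition is a consequence of irreducibility.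
-/

set_option autoImplicit false

namespace Pool.Agent.Results.MP_666dc0_nt.StabilizerPatching

open Pool.Agent.L5helper16.GP

/-- `Γ` is the Galois group of a Galois extension of `F` which contains `L` (for example the maximal one unramified
outside a finite set of places), `X` the set of its unramified places, `fr Q` the Frobenius element of `Q`; the theorem of
Chebotarev says that the Frobenius elements are dense; `π : Γ → V` is the restriction to `L`. -/
structure Setting (V : Type) [Group V] where
  Γ : Type
  X : Type
  [group : Group Γ]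
  [top : TopologicalSpace Γ]
  [topGroup : IsTopologicalGroup Γ]
  [action : MulAction Γ X]
  fr : X → Γ
  conj : ∀ (γ : Γ) (Q : X), fr (γ • Q) = γ * fr Q * γ⁻¹
  dense : Dense (Set.range fr)
  π : Γ →* V
  surj : Function.Surjective π
  isOpen : IsOpen (π.ker : Set Γ)

attribute [instance] Setting.group Setting.top Setting.topGroup Setting.action

namespace Setting

variable {V : Type} [Group V] (𝒮 : Setting V) {Ω : Type} [Field Ω] [TopologicalSpace Ω] {n : ℕ}
  {𝒢 : Subgroup (GL (Fin n) Ω)}

/-- parameters at conjugate places are conjugate in `𝒢` -/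
def Param (c : 𝒮.X → 𝒢) : Prop := ∀ (γ : 𝒮.Γ) (Q : 𝒮.X), IsConj (c (γ • Q)) (c Q)

/-- there is a `𝒢`-valued representation attached to `c` over the field of `H` -/
def Has (c : 𝒮.X → 𝒢) (H : Subgroup V) : Prop := ∃ r : H.comap 𝒮.π →* 𝒢, AttG 𝒮.π 𝒮.fr 𝒢 c H r

/-- `r` is absolutely irreducible over `L`, as a representation in `GL_n` -/
def Irr {H : Subgroup V} (r : H.comap 𝒮.π →* 𝒢) : Prop := Spans (resK 𝒮.π H (𝒢.subtype.comp r))

/-- there is a continuous `𝒢`-valued representation `s` over `F` whose Frobenius elements are conjugate in `𝒢` to the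
parameters, and every `𝒢`-valued representation attached to `c` over an intermediate field is conjugate in `𝒢` to the
restriction of `s` -/
def Patched (c : 𝒮.X → 𝒢) : Prop :=
  ∃ s : 𝒮.Γ →* 𝒢, Continuous s ∧ (∀ Q : 𝒮.X, IsConj (s (𝒮.fr Q)) (c Q)) ∧
    ∀ (H : Subgroup V) (r : H.comap 𝒮.π →* 𝒢), AttG 𝒮.π 𝒮.fr 𝒢 c H r →
      ∃ W : 𝒢, ∀ γ : H.comap 𝒮.π, s γ = W⁻¹ * r γ * W

/-- only the line of `u` has the character of the line of `u` over `L` -/
def OneLine {U : Type} [AddCommGroup U] [Module Ω U] (ρ : GL (Fin n) Ω →* Module.End Ω U) (u : U)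
    {H : Subgroup V} (r : H.comap 𝒮.π →* stab ρ u) : Prop :=
  ∀ v : U, (∀ x : H.comap 𝒮.π, (x : 𝒮.Γ) ∈ 𝒮.π.ker → ∀ a : Ω, ρ (r x) u = a • u → ρ (r x) v = a • v) →
    ∃ a : Ω, v = a • u

end Setting

/-- `V` is a group and `S` a family of subgroups such that every element of `V` is conjugate into a member of `S` and that
generates all relations of `V`.
(1) Patching with values in the stabilizer of the line of `u` in a representation `ρ` of `GL_n` is possible if its character
on this line is continuous and one of the given representations is absolutely irreducible over `L` and has no other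
line with this character.
(2) Patching with values in the similitude group of a nondegenerate bilinear form is possible if one of the given
representations is absolutely irreducible over `L`.
(3) `g` is in `sim J` if and only if `gᵀ J g` is a nonzero multiple of `J`. -/
theorem result {V : Type} [Group V] (S : Set (Subgroup V)) (hc : Covers S) (hS : Generates S) (𝒮 : Setting V)
    (Ω : Type) [Field Ω] [TopologicalSpace Ω] [IsTopologicalRing Ω] [T2Space Ω] (n : ℕ) :
    (∀ (U : Type) [AddCommGroup U] [Module Ω U] (ρ : GL (Fin n) Ω →* Module.End Ω U) (u : U) (hu : u ≠ 0),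
      Continuous (chr ρ u hu) → ∀ c : 𝒮.X → stab ρ u, 𝒮.Param c → (∀ H ∈ S, 𝒮.Has c H) →
      (∃ H ∈ S, ∃ r : H.comap 𝒮.π →* stab ρ u, AttG 𝒮.π 𝒮.fr (stab ρ u) c H r ∧ 𝒮.Irr r ∧ 𝒮.OneLine ρ u r) →
      𝒮.Patched c) ∧
    (∀ J : GL (Fin n) Ω, ∀ c : 𝒮.X → sim J, 𝒮.Param c → (∀ H ∈ S, 𝒮.Has c H) →
      (∃ H ∈ S, ∃ r : H.comap 𝒮.π →* sim J, AttG 𝒮.π 𝒮.fr (sim J) c H r ∧ 𝒮.Irr r) → 𝒮.Patched c) ∧
    (∀ J g : GL (Fin n) Ω, g ∈ sim J ↔ ∃ a : Ω, a ≠ 0 ∧
      (g : Matrix (Fin n) (Fin n) Ω).transpose * J * g = a • (J : Matrix (Fin n) (Fin n) Ω)) := by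
  refine ⟨?_, ?_, mem_sim⟩
  · intro U _ _ ρ u hu hch c hcc hr hirr
    refine patchG (𝒢 := stab ρ u) 𝒮.isOpen 𝒮.conj 𝒮.dense hcc 𝒮.surj hc hS ρ u (mem_stab ρ hu) (chr ρ u hu) hch
      (chr_spec ρ u hu) hr ?_
    obtain ⟨H, hH, r, h1, h2, h3⟩ := hirr
    refine ⟨H, hH, r, h1, h2, fun v hv => h3 v fun x hx a ha => ?_⟩
    have e := hv x hx
    rw [e]
    have e2 := chr_spec ρ u hu (r x)
    rw [ha] at e2
    have e3 : (a - (chr ρ u hu (r x) : Ω)) • u = 0 := by rw [sub_smul, e2, sub_self]
    rw [sub_eq_zero.mp ((smul_eq_zero.mp e3).resolve_right hu)]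
  · intro J c hcc hr hirr
    exact patchJ 𝒮.isOpen 𝒮.conj 𝒮.dense J hcc 𝒮.surj hc hS hr hirr

end Pool.Agent.Results.MP_666dc0_nt.StabilizerPatching
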